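import Pool.Agent.H32R2.KH.Near

set_option autoImplicit false

open Pool.Agent.H32R2.KH

/-- For `k` close to `n` the `k`-hafnian of `J` is exponentially larger than the minimum of the
`k`-hafnian over the perfect matching polytope. -/
theorem Pool.Agent.Results.MP_33747a_co.NearPerfect.result :
    ∃ c : ℝ, 0 < c ∧ ∃ q : ℝ, 0 < q ∧ q < 1 ∧ ∃ n₀ : ℕ, ∀ n k : ℕ, n₀ ≤ n → k ≤ n →
      (1 - c) * n ≤ k → ∃ B ∈ Psi n, khaf k B ≤ q ^ n * khaf k (J n) ∧
        khaf k B < khaf k (J n) := by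
  obtain ⟨c, hc, q, hq0, hq1, n₀, h⟩ := near
  refine ⟨c, hc, q, hq0, hq1, max n₀ 1, fun n k hn hk hck => ?_⟩
  have hn1 : 1 ≤ n := le_trans (le_max_right _ _) hn
  obtain ⟨B, hB, hB2⟩ := h n k (le_trans (le_max_left _ _) hn) hk hck
  refine ⟨B, hB, hB2, lt_of_le_of_lt hB2 ?_⟩
  have hJ : 0 < khaf k (J n) := by
    rw [khaf_J n k hk hn1]
    exact val_pos n k hn1
  have hqn : q ^ n < 1 := pow_lt_one₀ hq0.le hq1 (by omega)
  calc q ^ n * khaf k (J n) < 1 * khaf k (J n) := mul_lt_mul_of_pos_right hqn hJ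
    _ = khaf k (J n) := one_mul _
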