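import Pool.Agent.H32R2.KH.Perf

set_option autoImplicit false

open Pool.Agent.H32R2.KH

/-- For every `n ≥ 3` the hafnian has a value smaller than its value at `J` on the perfect
matching polytope of the complete graph on `2 n` vertices. -/
theorem Pool.Agent.Results.MP_33747a_co.PerfectAll.result (n : ℕ) (hn : 3 ≤ n) :
    ∃ B ∈ Psi n, khaf n B < khaf n (J n) :=
  perf n hn
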