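import Pool.Agent.H32R2.KH.JVal

set_option autoImplicit false

open Pool.Agent.H32R2.KH

/-- For `2 ≤ k ≤ n` with `5 (k - 2) ≤ n` the minimum of the `k`-hafnian over the perfect
matching polytope of `K_{2n}` is its value at `J`, namely
`(2n)! / ((2n - 2k)! 2^k k! (2n - 1)^k)`, and `J` is the only minimiser. -/
theorem Pool.Agent.Results.MP_33747a_co.SmallK.result (n k : ℕ) (h2 : 2 ≤ k) (hk : k ≤ n)
    (h5 : 5 * k ≤ n + 10) :
    IsLeast (khaf k '' Psi n) (((2 * n).factorial : ℝ) / ((2 * n - 2 * k).factorial * 2 ^ k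
      * k.factorial * (2 * (n : ℝ) - 1) ^ k)) ∧
    ∀ B ∈ Psi n, (khaf k B = ((2 * n).factorial : ℝ) / ((2 * n - 2 * k).factorial * 2 ^ k
      * k.factorial * (2 * (n : ℝ) - 1) ^ k) ↔ B = J n) := by
  have hJ : khaf k (J n) = ((2 * n).factorial : ℝ) / ((2 * n - 2 * k).factorial * 2 ^ k
      * k.factorial * (2 * (n : ℝ) - 1) ^ k) := khaf_J n k hk (by omega)
  rw [← hJ]
  refine ⟨⟨⟨J n, J_mem n, rfl⟩, ?_⟩, fun B hB => ⟨(small n k h2 hk h5 hB).2, fun h => by rw [h]⟩⟩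
  rintro _ ⟨B, hB, rfl⟩
  exact (small n k h2 hk h5 hB).1
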